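import Pool.Agent.helper450_im.PermMatrices

/-!
# Convergence for almost all permutation matrices, in every dimension

For every `d`, all but a proportion `O_d(1/k)` of the `d`-dimensional `k × ⋯ × k` permutation
matrices `P` have the property that `m(n,P,d) / n^(d-1)` converges as `n → ∞`.
-/

namespace Pool.Agent.Results.MP_b1c185_co.AlmostAllPerm

open Pool.Agent.Helper450IM Filter Topology

theorem result {d : ℕ} (hd : 0 < d) :
    (∀ k : ℕ, 8 * d ≤ k →
      {P : Mat d | IsPermMatrix k P}.Finite ∧ 0 < {P : Mat d | IsPermMatrix k P}.ncard ∧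
      ({P : Mat d | IsPermMatrix k P ∧ ¬ Converges P}.ncard : ℝ) ≤
        ((16 * d ^ 2 + (16 * d) ^ (2 * d)) / k) * {P : Mat d | IsPermMatrix k P}.ncard) ∧
    Tendsto (fun k : ℕ => ({P : Mat d | IsPermMatrix k P ∧ Converges P}.ncard : ℝ) /
      ({P : Mat d | IsPermMatrix k P}.ncard : ℝ)) atTop (𝓝 1) :=
  ⟨fun _ hk => count_nonconvergent hd hk, tendsto_ratio hd⟩

end Pool.Agent.Results.MP_b1c185_co.AlmostAllPerm
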