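import Pool.Agent.helper450_im.RichFull
import Pool.Agent.helper450_im.Var

/-!
# A rigidity criterion in every dimension, and families of convergent patterns
-/

namespace Pool.Agent.Results.MP_b1c185_co.RigidFamilies

open Pool.Agent.Helper450IM Filter Topology

theorem result {d : ℕ} (hd : 0 < d) (P : Mat d) (hP : P.ones.Nonempty) :
    -- (1) the criterion
    (∀ (r s : ℕ) (B C : Finset (Fin d → ℕ)), 2 ≤ r → 2 ≤ s →
      (∀ a b : ℕ, 0 < a → r ^ a ≠ s ^ b) →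
      B ⊆ box (fun _ => r) → r ^ (d - 1) ≤ B.card → Rigid P.ones B →
      C ⊆ box (fun _ => s) → s ^ (d - 1) ≤ C.card → Rigid P.ones C →
      ∃ L : ℝ, Tendsto (fun n : ℕ => (m n P : ℝ) / (n : ℝ) ^ (d - 1)) atTop (𝓝 L)) ∧
    -- (2) no one has two extreme coordinates, and enough pairs of opposite ones
    ((∀ p ∈ P.ones, ∀ i j, i ≠ j → ¬ (Extreme P.size p i ∧ Extreme P.size p j)) →
      (∀ (ℓ : Fin d) (T : Fin d → Finset ℕ), (∀ j, (T j).card ≤ 2) →
        ∃ y : Fin d → ℕ, (∀ j, j ≠ ℓ → ¬ Extreme P.size y j ∧ y j ∉ T j) ∧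
          Function.update y ℓ 0 ∈ P.ones ∧
          Function.update y ℓ (P.size ℓ - 1) ∈ P.ones) →
      ∃ L : ℝ, Tendsto (fun n : ℕ => (m n P : ℝ) / (n : ℝ) ^ (d - 1)) atTop (𝓝 L)) ∧
    -- (3) full facets, no ones with two extreme coordinates, arbitrary interior; and with all
    -- interior ones a comparison with two all-ones matrices
    ((∀ ℓ, 5 ≤ P.size ℓ) →
      (∀ x ∈ box P.size, (∃ i, Extreme P.size x i) →
        (x ∈ P.ones ↔ ∀ i j, i ≠ j → ¬ (Extreme P.size x i ∧ Extreme P.size x j))) →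
      (∃ L : ℝ, Tendsto (fun n : ℕ => (m n P : ℝ) / (n : ℝ) ^ (d - 1)) atTop (𝓝 L)) ∧
      ((∀ x ∈ box P.size, (∀ i, ¬ Extreme P.size x i) → x ∈ P.ones) →
        ∀ (Q Q' : Mat d) (ℓ₀ : Fin d), Q.size = P.size → Q.ones = box Q.size →
          Q'.size ℓ₀ = P.size ℓ₀ → (∀ ℓ, ℓ ≠ ℓ₀ → Q'.size ℓ + 2 = P.size ℓ) →
          Q'.ones = box Q'.size → ∀ n, m n Q' ≤ m n P ∧ m n P ≤ m n Q)) ∧
    -- (4) bounded oscillation from large antichains of blocks
    ((∀ D : ℝ, 0 < D → D < 1 / √d → AntichainDensity d D) ∧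
      (d = 2 → AntichainDensity d 1) ∧ (d = 3 → AntichainDensity d (3 / 4)) ∧
      ∀ D : ℝ, 0 < D → D ≤ 1 → AntichainDensity d D →
      (∀ ε : Fin d → Bool, CompConnected ε P.ones → ∃ L : ℝ,
        (∀ η > 0, ∀ᶠ n : ℕ in atTop, L - η ≤ (m n P : ℝ) / (n : ℝ) ^ (d - 1)) ∧
        ∀ η > 0, ∀ᶠ n : ℕ in atTop, D * ((m n P : ℝ) / (n : ℝ) ^ (d - 1)) ≤ L + η) ∧
      ∀ Q Q' : Mat d, (∀ ℓ, 2 ≤ Q.size ℓ) → Q.ones = box Q.size →
        (∀ ℓ, Q'.size ℓ + 1 = Q.size ℓ) → Q'.ones = box Q'.size → ∃ L : ℝ,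
        (∀ η > 0, ∀ᶠ n : ℕ in atTop, L - η ≤ (m n Q : ℝ) / (n : ℝ) ^ (d - 1)) ∧
        ∀ n : ℕ, 0 < n → D * ((m n Q' : ℝ) / (n : ℝ) ^ (d - 1)) ≤ L) := by
  refine ⟨?_, ?_, ?_, fun D hD hD' => antichainDensity_lt hd hD hD', ?_, ?_, ?_⟩
  · intro r s B C hr hs hind hB hBc hBr hC hCc hCr
    exact conv_of_rigid hd hP hr hs hind hB hBc hBr hC hCc hCr
  · intro hface hlines
    exact conv_of_rich hd hP hface hlines
  · intro hk hfull
    refine ⟨conv_of_rich hd hP ?_ (rich_of_facets hk fun x hx he h => (hfull x hx he).2 h), ?_⟩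
    · intro p hp i j hij hcon
      exact (hfull p (P.ones_subset hp) ⟨i, hcon.1⟩).1 hp i j hij hcon
    · intro hint Q Q' ℓ₀ hQs hQ h0 hs hQ' n
      have hfull' : ∀ x ∈ box P.size,
          (∀ i j, i ≠ j → ¬ (Extreme P.size x i ∧ Extreme P.size x j)) → x ∈ P.ones := by
        intro x hx h
        by_cases he : ∃ i, Extreme P.size x i
        · exact (hfull x hx he).2 h
        · push Not at he
          exact hint x hx he
      have hk3 : ∀ ℓ, 3 ≤ P.size ℓ := fun ℓ => by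
        have := hk ℓ
        omega
      have hne : Q'.ones.Nonempty := by
        rw [hQ']
        apply box_nonempty
        intro ℓ
        by_cases h : ℓ = ℓ₀
        · subst h
          have := hk3 ℓ
          omega
        · have h1 := hk3 ℓ
          have h2 := hs ℓ h
          omega
      refine ⟨m_allOnes_le hP hne ℓ₀ hk3 hfull' h0 hs n, m_le_of_subset hP hQs ?_ n⟩
      rw [hQ, hQs]
      exact P.ones_subset
  · rintro rfl
    exact antichainDensity_two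
  · rintro rfl
    exact antichainDensity_three
  · intro D hD hD1 hdens
    refine ⟨fun ε hconn => ?_, fun Q Q' hk hQ hs hQ' => allOnes_osc hd hk hQ hs hQ' hD hdens⟩
    obtain ⟨L, _, h1, h2⟩ := osc_connected_all hd hP hconn hD hD1 hdens
    exact ⟨L, h1, h2⟩

end Pool.Agent.Results.MP_b1c185_co.RigidFamilies
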