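import Pool.Agent.helper450_im.ThinReduce

/-!
# Thin directions

A direction `ℓ` is thin for `P` if some nonzero `ℓ`-cross section of `P` is such that the ones
before it lie in one `ℓ`-cross section or on one line in direction `ℓ`, and so do the ones after
it (for instance if `P` has at most three nonzero `ℓ`-cross sections). Thin directions can be
removed: the extremal function of `P` is expressed by that of a projection of `P`.
-/

namespace Pool.Agent.Results.MP_b1c185_co.ThreeLevels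

open Pool.Agent.Helper450IM Filter Topology

theorem result {d : ℕ} (P : Mat d) (hP : P.ones.Nonempty) :
    -- (1) the reduction: exact value and normalised difference
    (∀ (t : ℕ) (e : Fin t → Fin d) (R : Mat t), 0 < t → ThinReduction e P R →
      (∀ n : Fin d → ℕ, maxOnes n P + (∏ ℓ ∈ outside e, (n ℓ + 1 - P.size ℓ)) *
        (∏ i, n (e i) - maxOnes (fun i => n (e i)) R) = ∏ ℓ, n ℓ) ∧
      Tendsto (fun n : ℕ => (m n P : ℝ) / (n : ℝ) ^ (d - 1) - (m n R : ℝ) / (n : ℝ) ^ (t - 1))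
        atTop (𝓝 (∑ ℓ ∈ outside e, ((P.size ℓ : ℝ) - 1)))) ∧
    -- (2) all directions but one
    (∀ ℓ₀ : Fin d, (∃ L : List (Fin d), (∀ ℓ, ℓ ∈ L ↔ ℓ ≠ ℓ₀) ∧ ThinSeq L P.ones) →
      (∀ n : Fin d → ℕ, maxOnes n P = ∏ ℓ, n ℓ - ∏ ℓ, (n ℓ + 1 - P.size ℓ)) ∧
      Tendsto (fun n : ℕ => (m n P : ℝ) / (n : ℝ) ^ (d - 1)) atTop
        (𝓝 (∑ ℓ, ((P.size ℓ : ℝ) - 1)))) := by
  refine ⟨?_, ?_⟩
  · intro t e R ht h
    exact ⟨fun n => thin_exact h hP n, thin_tendsto ht h hP⟩
  · intro ℓ₀ hthin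
    refine ⟨fun n => thin_frame hP ℓ₀ hthin n, ?_⟩
    have h := tendsto_frame (lt_of_le_of_lt (Nat.zero_le _) ℓ₀.2) P.size (Mat.size_pos hP)
    refine h.congr ?_
    intro n
    rw [m, thin_frame hP ℓ₀ hthin]

end Pool.Agent.Results.MP_b1c185_co.ThreeLevels
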