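import Pool.Agent.helper450_im.HalfAll

/-!
# Two-dimensional patterns: convergence or bounded oscillation

A one of a two-dimensional 0-1 matrix `P` is called a corner one if it lies in the first or last
row containing a one and in the first or last column containing a one (so there are at most four
corner ones). Let `c` be their number. Then the upper limit of `m(n,P,2) / n` is at most
`oscFactor P` times its lower limit, where `oscFactor P` is `max(1, c / 2)` if each of the four
boundary lines (first and last row and column containing a one) contains a one that is not a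
corner one, and `max(1, c - 1)` otherwise. For `c ≤ 2` this is convergence.
-/

namespace Pool.Agent.Results.MP_b1c185_co.TwoDimOsc

open Pool.Agent.Helper450IM Filter Topology

theorem result (P : Mat 2) :
    ∃ C : ℝ, ∀ ε > 0, ∀ᶠ n : ℕ in atTop,
      C - ε ≤ (m n P : ℝ) / (n : ℝ) ^ (2 - 1) ∧
      (m n P : ℝ) / (n : ℝ) ^ (2 - 1) ≤ oscFactor P * C + ε := by
  obtain ⟨C, _, h1, h2⟩ := osc_factor P
  refine ⟨C, fun ε hε => ?_⟩
  filter_upwards [h1 ε hε, h2 ε hε] with n hn1 hn2
  have e : (n : ℝ) ^ (2 - 1) = n := by norm_num
  rw [e]
  exact ⟨hn1, hn2⟩

end Pool.Agent.Results.MP_b1c185_co.TwoDimOsc
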